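import Mathlib

namespace Pool.Agent.Results.MP_0878ad_co.FiniteHelly

open Function Set Filter Topology

/-! ### Closed partial orders on a Cantor cube -/

section Abs

variable {ι : Type*}

/-- the cylinder around `z` given by the coordinates in `s` -/
def Nb (s : Finset ι) (z : ι → Bool) : Set (ι → Bool) := {u | ∀ D ∈ s, u D = z D}

lemma self_mem_nb (s : Finset ι) (z : ι → Bool) : z ∈ Nb s z := fun _ _ => rfl

lemma nb_anti {s t : Finset ι} (h : s ⊆ t) (z : ι → Bool) : Nb t z ⊆ Nb s z :=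
  fun _ hu D hD => hu D (h hD)

lemma isClopen_nb (s : Finset ι) (z : ι → Bool) : IsClopen (Nb s z) := by
  have : Nb s z = ⋂ D ∈ s, (fun u : ι → Bool => u D) ⁻¹' {z D} := by
    ext u
    simp [Nb]
  rw [this]
  exact isClopen_biInter_finset (fun D _ => (isClopen_discrete _).preimage (continuous_apply D))

lemma exists_nb_subset {z : ι → Bool} {U : Set (ι → Bool)} (hU : U ∈ 𝓝 z) :
    ∃ s, Nb s z ⊆ U := by
  rw [nhds_pi, Filter.mem_pi'] at hU
  obtain ⟨I, t, ht, hsub⟩ := hU
  refine ⟨I, fun u hu => hsub ?_⟩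
  intro i hi
  rw [hu i hi]
  exact mem_of_mem_nhds (ht i)

lemma tendsto_of_nb {z : ι → Bool} {f : Finset ι → ι → Bool} (s0 : Finset ι)
    (h : ∀ s, s0 ⊆ s → f s ∈ Nb s z) : Tendsto f atTop (𝓝 z) := by
  rw [tendsto_pi_nhds]
  intro D
  apply tendsto_nhds_of_eventually_eq
  classical
  filter_upwards [eventually_ge_atTop (insert D s0)] with s hs
  exact h s ((Finset.subset_insert D s0).trans hs) D (hs (Finset.mem_insert_self D s0))

lemma exists_lim {κ : Type*} (G : Ultrafilter κ) (f : κ → ι → Bool) :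
    ∃ x, Tendsto f G (𝓝 x) := by
  obtain ⟨x, -, hx⟩ := isCompact_univ.ultrafilter_le_nhds (G.map f) (by simp)
  exact ⟨x, hx⟩

lemma eventually_nb {κ : Type*} {G : Filter κ} {f : κ → ι → Bool} {x : ι → Bool}
    (h : Tendsto f G (𝓝 x)) (s : Finset ι) : ∀ᶠ k in G, f k ∈ Nb s x :=
  h.eventually ((isClopen_nb s x).isOpen.mem_nhds (self_mem_nb s x))

/-- closed partial orders for which the cylinders are convex -/
structure PO (r : (ι → Bool) → (ι → Bool) → Prop) : Prop where
  refl : ∀ a, r a a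
  trans : ∀ {a b c}, r a b → r b c → r a c
  antisymm : ∀ {a b}, r a b → r b a → a = b
  closed : IsClosed {p : (ι → Bool) × (ι → Bool) | r p.1 p.2}
  convex : ∀ {s z a b c}, r a b → r b c → a ∈ Nb s z → c ∈ Nb s z → b ∈ Nb s z

lemma po_le : PO (ι := ι) (fun a b => a ≤ b) where
  refl := fun a => le_refl a
  trans := fun h h' => le_trans h h'
  antisymm := fun h h' => le_antisymm h h'
  closed := by
    have : {p : (ι → Bool) × (ι → Bool) | p.1 ≤ p.2} =
        ⋂ D, (fun p : (ι → Bool) × (ι → Bool) => (p.1 D, p.2 D)) ⁻¹' {q | q.1 ≤ q.2} := by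
      ext p
      simp [Pi.le_def]
    rw [this]
    refine isClosed_iInter (fun D => IsClosed.preimage ?_ (isClosed_discrete _))
    exact ((continuous_apply D).comp continuous_fst).prodMk
      ((continuous_apply D).comp continuous_snd)
  convex := by
    intro s z a b c hab hbc ha hc D hD
    apply le_antisymm
    · rw [← hc D hD]; exact hbc D
    · rw [← ha D hD]; exact hab D

lemma PO.flip {r : (ι → Bool) → (ι → Bool) → Prop} (h : PO r) : PO (fun a b => r b a) where
  refl := h.refl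
  trans := fun h1 h2 => h.trans h2 h1
  antisymm := fun h1 h2 => h.antisymm h2 h1
  closed := h.closed.preimage continuous_swap
  convex := fun h1 h2 ha hc => h.convex h2 h1 hc ha

/-- `y` is a witness for the tuple `t` -/
def Wit {α : Type*} (r : α → α → Prop) {n : ℕ} (t : Fin n → α) (y : α) : Prop :=
  (∃ i i', i ≠ i' ∧ r (t i) y ∧ r (t i') y) ∧ (∃ j j', j ≠ j' ∧ r y (t j) ∧ r y (t j'))

/-- every injective `n`-tuple of `F` has a witness in `F` -/
def Good {α : Type*} (r : α → α → Prop) (n : ℕ) (F : Set α) : Prop :=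
  ∀ t : Fin n → α, Injective t → (∀ i, t i ∈ F) → ∃ y ∈ F, Wit r t y

lemma Good.flip {r : (ι → Bool) → (ι → Bool) → Prop} {n : ℕ} {F : Set (ι → Bool)}
    (h : Good r n F) : Good (fun a b => r b a) n F := by
  intro t ht htF
  obtain ⟨y, hy, h1, h2⟩ := h t ht htF
  exact ⟨y, hy, h2, h1⟩

variable {r : (ι → Bool) → (ι → Bool) → Prop}

lemma PO.lim (h : PO r) {κ : Type*} {G : Filter κ} [NeBot G] {f g : κ → ι → Bool}
    {x y : ι → Bool} (hf : Tendsto f G (𝓝 x)) (hg : Tendsto g G (𝓝 y))
    (hfg : ∀ᶠ k in G, r (f k) (g k)) : r x y :=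
  h.closed.mem_of_tendsto (hf.prodMk_nhds hg) hfg

lemma PO.isClosed_Ici (h : PO r) (a : ι → Bool) : IsClosed {u | r a u} :=
  h.closed.preimage (Continuous.prodMk continuous_const continuous_id)

lemma PO.isClosed_Iic (h : PO r) (a : ι → Bool) : IsClosed {u | r u a} :=
  h.closed.preimage (Continuous.prodMk continuous_id continuous_const)

lemma isClosed_wit (h : PO r) {n : ℕ} :
    IsClosed {p : (Fin n → ι → Bool) × (ι → Bool) | Wit r p.1 p.2} := by
  have h1 : IsClosed {p : (Fin n → ι → Bool) × (ι → Bool) |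
      ∃ i i', i ≠ i' ∧ r (p.1 i) p.2 ∧ r (p.1 i') p.2} := by
    have : {p : (Fin n → ι → Bool) × (ι → Bool) |
      ∃ i i', i ≠ i' ∧ r (p.1 i) p.2 ∧ r (p.1 i') p.2} =
      ⋃ i, ⋃ i', {p | i ≠ i' ∧ r (p.1 i) p.2 ∧ r (p.1 i') p.2} := by
      ext p
      simp
    rw [this]
    refine isClosed_iUnion_of_finite (fun i => isClosed_iUnion_of_finite (fun i' => ?_))
    by_cases hi : i ≠ i'
    · simp only [hi, ne_eq, not_false_eq_true, true_and]
      refine IsClosed.inter ?_ ?_
      · show IsClosed ((fun p : (Fin n → ι → Bool) × (ι → Bool) => (p.1 i, p.2)) ⁻¹'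
          {q : (ι → Bool) × (ι → Bool) | r q.1 q.2})
        exact h.closed.preimage (by fun_prop)
      · show IsClosed ((fun p : (Fin n → ι → Bool) × (ι → Bool) => (p.1 i', p.2)) ⁻¹'
          {q : (ι → Bool) × (ι → Bool) | r q.1 q.2})
        exact h.closed.preimage (by fun_prop)
    · simp [hi]
  have h2 : IsClosed {p : (Fin n → ι → Bool) × (ι → Bool) |
      ∃ i i', i ≠ i' ∧ r p.2 (p.1 i) ∧ r p.2 (p.1 i')} := by
    have : {p : (Fin n → ι → Bool) × (ι → Bool) |
      ∃ i i', i ≠ i' ∧ r p.2 (p.1 i) ∧ r p.2 (p.1 i')} =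
      ⋃ i, ⋃ i', {p | i ≠ i' ∧ r p.2 (p.1 i) ∧ r p.2 (p.1 i')} := by
      ext p
      simp
    rw [this]
    refine isClosed_iUnion_of_finite (fun i => isClosed_iUnion_of_finite (fun i' => ?_))
    by_cases hi : i ≠ i'
    · simp only [hi, ne_eq, not_false_eq_true, true_and]
      refine IsClosed.inter ?_ ?_
      · show IsClosed ((fun p : (Fin n → ι → Bool) × (ι → Bool) => (p.2, p.1 i)) ⁻¹'
          {q : (ι → Bool) × (ι → Bool) | r q.1 q.2})
        exact h.closed.preimage (by fun_prop)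
      · show IsClosed ((fun p : (Fin n → ι → Bool) × (ι → Bool) => (p.2, p.1 i')) ⁻¹'
          {q : (ι → Bool) × (ι → Bool) | r q.1 q.2})
        exact h.closed.preimage (by fun_prop)
    · simp [hi]
  exact h1.inter h2

lemma isClosed_wit_right (h : PO r) {n : ℕ} (t : Fin n → ι → Bool) :
    IsClosed {y | Wit r t y} :=
  (isClosed_wit h).preimage (Continuous.prodMk continuous_const continuous_id)

/-- Near a point of a good set all points of the set are comparable to it. -/
lemma comp_near (h : PO r) {n : ℕ} {F : Set (ι → Bool)} (hF : Good r n F)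
    (z : ι → Bool) : ∃ s, ∀ u ∈ F, u ∈ Nb s z → r u z ∨ r z u := by
  by_contra hcon
  push Not at hcon
  have key : ∀ k : ℕ, ∃ t : Fin k → ι → Bool, (∀ i, t i ∈ F ∧ ¬ r (t i) z ∧ ¬ r z (t i)) ∧
      ∀ i j, i ≠ j → ¬ r (t i) (t j) := by
    intro k
    induction k with
    | zero => exact ⟨fun i => i.elim0, fun i => i.elim0, fun i => i.elim0⟩
    | succ k ih =>
      obtain ⟨t, ht1, ht2⟩ := ih
      have hU : (⋂ i, ({u | r (t i) u}ᶜ ∩ {u | r u (t i)}ᶜ)) ∈ 𝓝 z := by
        apply IsOpen.mem_nhds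
        · exact isOpen_iInter_of_finite (fun i =>
            (h.isClosed_Ici (t i)).isOpen_compl.inter (h.isClosed_Iic (t i)).isOpen_compl)
        · simp only [mem_iInter]
          intro i
          exact ⟨(ht1 i).2.1, (ht1 i).2.2⟩
      obtain ⟨s, hs⟩ := exists_nb_subset hU
      obtain ⟨u, huF, hus, hu1, hu2⟩ := hcon s
      have hu := hs hus
      simp only [mem_iInter] at hu
      refine ⟨Fin.cons u t, ?_, ?_⟩
      · intro i
        refine Fin.cases ?_ (fun i => ?_) i
        · exact ⟨huF, hu1, hu2⟩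
        · simpa using ht1 i
      · intro i j
        refine Fin.cases ?_ (fun i => ?_) i
        · refine Fin.cases ?_ (fun j => ?_) j
          · intro h; exact absurd rfl h
          · intro _
            simpa using (hu j).2
        · refine Fin.cases ?_ (fun j => ?_) j
          · intro _
            simpa using (hu i).1
          · intro hij
            simpa using ht2 i j (fun h => hij (by rw [h]))
  obtain ⟨t, ht1, ht2⟩ := key n
  obtain ⟨y, -, ⟨i, i', hii, h1, h2⟩, ⟨j, j', hjj, h3, h4⟩⟩ := hF t (by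
    intro i j hij
    by_contra hne
    exact ht2 i j hne (by rw [hij]; exact h.refl _)) (fun i => (ht1 i).1)
  have e1 : i = j := by
    by_contra hne
    exact ht2 i j hne (h.trans h1 h3)
  have e2 : i = j' := by
    by_contra hne
    exact ht2 i j' hne (h.trans h1 h4)
  exact hjj (e1.symm.trans e2)

/-- A nonempty closed set has a maximal element. -/
lemma exists_max (h : PO r) {K : Set (ι → Bool)} (hK : IsClosed K) (hne : K.Nonempty) :
    ∃ z ∈ K, ∀ u ∈ K, r z u → u = z := by
  have hne' : Nonempty K := hne.to_subtype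
  obtain ⟨⟨m, hmK⟩, hm⟩ := exists_maximal_of_nonempty_chains_bounded
    (α := K) (r := fun a b => r a.1 b.1) (by
      intro c hc hcne
      have hcne' : Nonempty c := hcne.to_subtype
      have := IsCompact.nonempty_iInter_of_directed_nonempty_isCompact_isClosed
        (fun k : c => K ∩ {u | r k.1.1 u}) (by
          intro a b
          by_cases hab : a = b
          · exact ⟨a, subset_rfl, by rw [hab]⟩
          · rcases hc a.2 b.2 (fun h => hab (Subtype.ext h)) with h1 | h1
            · exact ⟨b, fun u hu => ⟨hu.1, h.trans h1 hu.2⟩, subset_rfl⟩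
            · exact ⟨a, subset_rfl, fun u hu => ⟨hu.1, h.trans h1 hu.2⟩⟩)
        (fun k => ⟨k.1.1, k.1.2, h.refl _⟩)
        (fun k => (hK.inter (h.isClosed_Ici _)).isCompact)
        (fun k => hK.inter (h.isClosed_Ici _))
      obtain ⟨u, hu⟩ := this
      simp only [mem_iInter] at hu
      obtain ⟨k0⟩ := hcne'
      exact ⟨⟨u, (hu k0).1⟩, fun a ha => (hu ⟨a, ha⟩).2⟩) (fun h1 h2 => h.trans h1 h2)
  refine ⟨m, hmK, fun u hu hmu => ?_⟩
  exact h.antisymm (hm ⟨u, hu⟩ hmu) hmu

/-- A minimal closed good set has no point which is a limit from below. -/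
lemma no_lim_below (h : PO r) {n : ℕ} {E F : Set (ι → Bool)} (hE : E.Finite) (hEF : E ⊆ F)
    (hFc : IsClosed F) (hF : Good r n F)
    (hmin : ∀ F', IsClosed F' → E ⊆ F' → F' ⊆ F → Good r n F' → F' = F) :
    ¬ ∃ z ∈ F, ∀ s, ∃ y ∈ F, y ∈ Nb s z ∧ r y z ∧ y ≠ z := by
  classical
  intro hex
  set L : Set (ι → Bool) := {z ∈ F | ∀ s, ∃ y ∈ F, y ∈ Nb s z ∧ r y z ∧ y ≠ z} with hL
  have hLne : L.Nonempty := by
    obtain ⟨z, hz, hz'⟩ := hex
    exact ⟨z, hz, hz'⟩
  -- a maximal element of the closure of `L` lies in `L`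
  obtain ⟨z, hzc, hzmax⟩ := exists_max h isClosed_closure hLne.closure
  have hzF : z ∈ F := closure_minimal (fun u hu => hu.1) hFc hzc
  obtain ⟨s0, hs0⟩ := comp_near h hF z
  have hzL : z ∈ L := by
    by_contra hnot
    have : ∃ s, ∀ y ∈ F, y ∈ Nb s z → r y z → y = z := by
      by_contra hcon
      push Not at hcon
      exact hnot ⟨hzF, hcon⟩
    obtain ⟨s1, hs1⟩ := this
    obtain ⟨u, huN, huL⟩ := mem_closure_iff.1 hzc (Nb (s0 ∪ s1) z) (isClopen_nb _ _).isOpen
      (self_mem_nb _ _)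
    have huF : u ∈ F := huL.1
    have hu : u = z := by
      rcases hs0 u huF (nb_anti Finset.subset_union_left z huN) with h1 | h1
      · exact hs1 u huF (nb_anti Finset.subset_union_right z huN) h1
      · exact hzmax u (subset_closure huL) h1
    exact hnot (hu ▸ huL)
  have hzmaxL : ∀ u ∈ L, r z u → u = z := fun u hu => hzmax u (subset_closure hu)
  -- a cylinder separating `z` from the rest of `E`
  obtain ⟨s1, hs1⟩ : ∃ s1, ∀ e ∈ E, e ∈ Nb s1 z → e = z := by
    have hU : (E \ {z})ᶜ ∈ 𝓝 z := by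
      apply IsOpen.mem_nhds
      · exact (hE.subset Set.sdiff_subset).isClosed.isOpen_compl
      · simp
    obtain ⟨s1, hs1⟩ := exists_nb_subset hU
    refine ⟨s1, fun e he heN => ?_⟩
    by_contra hne
    exact hs1 heN ⟨he, hne⟩
  set s2 := s0 ∪ s1 with hs2
  -- the smaller sets
  let Fs : Finset ι → Set (ι → Bool) := fun s => F ∩ ((Nb s z)ᶜ ∪ {u | r z u})
  have hstep : ∀ s, s2 ⊆ s → ∃ p : (ι → Bool) × (ι → Bool), p.1 ∈ F ∧ p.1 ∈ Nb s z ∧
      r p.1 z ∧ r p.1 p.2 ∧ p.2 ∈ Fs s ∧ ¬ r z p.2 := by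
    intro s hs
    have h1 : IsClosed (Fs s) :=
      hFc.inter ((isClopen_nb s z).isOpen.isClosed_compl.union (h.isClosed_Ici z))
    have h2 : E ⊆ Fs s := by
      intro e he
      refine ⟨hEF he, ?_⟩
      by_cases heN : e ∈ Nb s z
      · right
        rw [hs1 e he (nb_anti (Finset.subset_union_right.trans hs) z heN)]
        exact h.refl z
      · left
        exact heN
    have h3 : Fs s ≠ F := by
      intro heq
      obtain ⟨y, hyF, hyN, hyz, hne⟩ := hzL.2 s
      have : y ∈ Fs s := by rw [heq]; exact hyF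
      rcases this.2 with h4 | h4
      · exact h4 hyN
      · exact hne (h.antisymm hyz h4)
    have h4 : ¬ Good r n (Fs s) := fun hg => h3 (hmin _ h1 h2 inter_subset_left hg)
    unfold Good at h4
    push Not at h4
    obtain ⟨t, htinj, htF, hno⟩ := h4
    obtain ⟨y, hyF, hw⟩ := hF t htinj (fun i => (htF i).1)
    have hyn : y ∉ Fs s := fun hy => hno y hy hw
    have hyN : y ∈ Nb s z := by
      by_contra hc
      exact hyn ⟨hyF, Or.inl hc⟩
    have hyz' : ¬ r z y := fun hc => hyn ⟨hyF, Or.inr hc⟩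
    have hyz : r y z := by
      rcases hs0 y hyF (nb_anti (Finset.subset_union_left.trans hs) z hyN) with h5 | h5
      · exact h5
      · exact absurd h5 hyz'
    have hzno := hno z ⟨hzF, Or.inr (h.refl z)⟩
    obtain ⟨⟨i, i', hii, hi1, hi2⟩, ⟨j, j', hjj, hj1, hj2⟩⟩ := hw
    have : ¬ r z (t j) ∨ ¬ r z (t j') := by
      by_contra hc
      push Not at hc
      exact hzno ⟨⟨i, i', hii, h.trans hi1 hyz, h.trans hi2 hyz⟩, ⟨j, j', hjj, hc.1, hc.2⟩⟩
    rcases this with h6 | h6
    · exact ⟨(y, t j), hyF, hyN, hyz, hj1, htF j, h6⟩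
    · exact ⟨(y, t j'), hyF, hyN, hyz, hj2, htF j', h6⟩
  choose! p hp using hstep
  let G : Ultrafilter (Finset ι) := Ultrafilter.of atTop
  have hG : (G : Filter (Finset ι)) ≤ atTop := Ultrafilter.of_le atTop
  have hev : ∀ᶠ s in (G : Filter (Finset ι)), s2 ⊆ s :=
    hG (eventually_ge_atTop s2)
  have hy : Tendsto (fun s => (p s).1) G (𝓝 z) :=
    (tendsto_of_nb s2 (fun s hs => (hp s hs).2.1)).mono_left hG
  obtain ⟨z', hz'⟩ := exists_lim G (fun s => (p s).2)
  have hz'F : z' ∈ F := hFc.mem_of_tendsto hz' (hev.mono (fun s hs => (hp s hs).2.2.2.2.1.1))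
  have hzz' : r z z' := h.lim hy hz' (hev.mono (fun s hs => (hp s hs).2.2.2.1))
  obtain ⟨s3, hs3⟩ := comp_near h hF z'
  have hz'L : z' ∈ L := by
    refine ⟨hz'F, fun s => ?_⟩
    obtain ⟨k, hk1, hk2⟩ := ((eventually_nb hz' (s ∪ s3)).and hev).exists
    have hkF : (p k).2 ∈ F := (hp k hk2).2.2.2.2.1.1
    have hkz : ¬ r z (p k).2 := (hp k hk2).2.2.2.2.2
    refine ⟨(p k).2, hkF, nb_anti Finset.subset_union_left _ hk1, ?_, ?_⟩
    · rcases hs3 _ hkF (nb_anti Finset.subset_union_right _ hk1) with h1 | h1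
      · exact h1
      · exact absurd (h.trans hzz' h1) hkz
    · intro heq
      rw [heq] at hkz
      exact hkz hzz'
  have hzz : z' = z := hzmaxL z' hz'L hzz'
  rw [hzz] at hz'
  obtain ⟨k, hk1, hk2⟩ := ((eventually_nb hz' s0).and hev).exists
  obtain ⟨q1, q2, q3, q4, q5, q6⟩ := hp k hk2
  have h1 : r (p k).2 z := by
    rcases hs0 _ q5.1 hk1 with h1 | h1
    · exact h1
    · exact absurd h1 q6
  have h2 : (p k).2 ∈ Nb k z := h.convex q4 h1 q2 (self_mem_nb k z)
  rcases q5.2 with h3 | h3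
  · exact h3 h2
  · exact q6 h3

/-- Every closed good set contains a finite good set through a given finite subset. -/
theorem exists_finite_good (h : PO r) {n : ℕ} {E F0 : Set (ι → Bool)} (hE : E.Finite)
    (hEF : E ⊆ F0) (hF0 : IsClosed F0) (hg : Good r n F0) :
    ∃ F, F.Finite ∧ E ⊆ F ∧ F ⊆ F0 ∧ Good r n F := by
  classical
  obtain ⟨F, hFs, hFmin⟩ := zorn_superset_nonempty
    {F : Set (ι → Bool) | IsClosed F ∧ E ⊆ F ∧ F ⊆ F0 ∧ Good r n F} (by
      intro c hcS hc hcne
      refine ⟨⋂₀ c, ⟨?_, ?_, ?_, ?_⟩, fun s hs => sInter_subset_of_mem hs⟩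
      · exact isClosed_sInter (fun s hs => (hcS hs).1)
      · exact subset_sInter (fun s hs => (hcS hs).2.1)
      · obtain ⟨s, hs⟩ := hcne
        exact (sInter_subset_of_mem hs).trans (hcS hs).2.2.1
      · intro t ht htF
        have hcne' : Nonempty c := hcne.to_subtype
        have := IsCompact.nonempty_iInter_of_directed_nonempty_isCompact_isClosed
          (fun k : c => k.1 ∩ {u | Wit r t u}) (by
            intro a b
            rcases hc.total a.2 b.2 with h1 | h1
            · exact ⟨a, subset_rfl, inter_subset_inter_left _ h1⟩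
            · exact ⟨b, inter_subset_inter_left _ h1, subset_rfl⟩)
          (fun k => by
            obtain ⟨y, hy, hw⟩ := (hcS k.2).2.2.2 t ht (fun i => htF i k.1 k.2)
            exact ⟨y, hy, hw⟩)
          (fun k => ((hcS k.2).1.inter (isClosed_wit_right h t)).isCompact)
          (fun k => (hcS k.2).1.inter (isClosed_wit_right h t))
        obtain ⟨u, hu⟩ := this
        simp only [mem_iInter] at hu
        obtain ⟨k0⟩ := hcne'
        exact ⟨u, fun s hs => (hu ⟨s, hs⟩).1, (hu k0).2⟩)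
    F0 ⟨hF0, hEF, subset_rfl, hg⟩
  obtain ⟨hFc, hEF', hFF0, hFg⟩ := hFmin.prop
  have hmin : ∀ F', IsClosed F' → E ⊆ F' → F' ⊆ F → Good r n F' → F' = F := by
    intro F' h1 h2 h3 h4
    exact hFmin.eq_of_subset ⟨h1, h2, h3.trans hFF0, h4⟩ h3
  refine ⟨F, ?_, hEF', hFF0, hFg⟩
  by_contra hinf
  have hinf' : F.Infinite := hinf
  obtain ⟨z, hzF, hz⟩ := hinf'.exists_accPt_of_subset_isCompact hFc.isCompact subset_rfl
  have hacc : ∀ s, ∃ u ∈ F, u ∈ Nb s z ∧ u ≠ z := by
    intro s
    rw [accPt_iff_nhds] at hz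
    obtain ⟨u, hu, hne⟩ := hz (Nb s z) ((isClopen_nb s z).isOpen.mem_nhds (self_mem_nb s z))
    exact ⟨u, hu.2, hu.1, hne⟩
  obtain ⟨s0, hs0⟩ := comp_near h hFg z
  have h1 := no_lim_below h hE hEF' hFc hFg hmin
  have h2 := no_lim_below h.flip hE hEF' hFc hFg.flip (by
    intro F' a1 a2 a3 a4
    exact hmin F' a1 a2 a3 a4.flip)
  push Not at h1 h2
  obtain ⟨s1, hs1⟩ := h1 z hzF
  obtain ⟨s2, hs2⟩ := h2 z hzF
  obtain ⟨u, huF, huN, hne⟩ := hacc (s0 ∪ s1 ∪ s2)
  rcases hs0 u huF (nb_anti (Finset.subset_union_left.trans Finset.subset_union_left) z huN)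
    with h3 | h3
  · exact hne (hs1 u huF
      (nb_anti (Finset.subset_union_right.trans Finset.subset_union_left) z huN) h3)
  · exact hne (hs2 u huF (nb_anti Finset.subset_union_right z huN) h3)

end Abs



/-! ### The embedding of a poset into the cube -/

lemma exists_sep {ι : Type*} {A : Set (ι → Bool)} (hA : A.Finite) :
    ∃ s : Finset ι, ∀ a ∈ A, ∀ b ∈ A, (∀ D ∈ s, a D = b D) → a = b := by
  classical
  have h1 : ∀ p : (ι → Bool) × (ι → Bool), ∃ s : Finset ι,
      (∀ D ∈ s, p.1 D = p.2 D) → p.1 = p.2 := by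
    intro p
    by_cases hp : p.1 = p.2
    · exact ⟨∅, fun _ => hp⟩
    · obtain ⟨D, hD⟩ := Function.ne_iff.1 hp
      exact ⟨{D}, fun h => absurd (h D (by simp)) hD⟩
  choose f hf using h1
  refine ⟨(hA.toFinset ×ˢ hA.toFinset).biUnion f, fun a ha b hb h => hf (a, b) ?_⟩
  intro D hD
  apply h D
  simp only [Finset.mem_biUnion, Finset.mem_product, Set.Finite.mem_toFinset]
  exact ⟨(a, b), ⟨ha, hb⟩, hD⟩

section Emb

variable {X : Type*} [PartialOrder X]

open Classical in
/-- the embedding of `X` into the cube over the lower sets -/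
noncomputable def emb (x : X) : LowerSet X → Bool := fun D => decide (x ∉ D)

lemma emb_true {x : X} {D : LowerSet X} : emb x D = true ↔ x ∉ D := by simp [emb]

lemma emb_false {x : X} {D : LowerSet X} : emb x D = false ↔ x ∈ D := by simp [emb]

lemma emb_le {x x' : X} : emb x ≤ emb x' ↔ x ≤ x' := by
  constructor
  · intro h
    have h1 := h (LowerSet.Iic x')
    have h2 : emb x' (LowerSet.Iic x') = false := emb_false.2 (by simp)
    rw [h2] at h1
    have h3 : emb x (LowerSet.Iic x') = false := le_bot_iff.1 h1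
    simpa using emb_false.1 h3
  · intro h D
    rw [Bool.le_iff_imp]
    intro h1
    rw [emb_true] at h1 ⊢
    exact fun h2 => h1 (D.lower h h2)

lemma emb_injective : Injective (emb : X → LowerSet X → Bool) := fun _ _ h =>
  le_antisymm (emb_le.1 h.le) (emb_le.1 h.ge)

/-- the lower set of the points not above `a` -/
def notAbove (a : X) : LowerSet X where
  carrier := {x | ¬ a ≤ x}
  lower' := fun _ _ h h1 h2 => h1 (h2.trans h)

lemma mem_notAbove {a x : X} : x ∈ notAbove a ↔ ¬ a ≤ x := Iff.rfl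

lemma emb_notAbove {a x : X} : emb x (notAbove a) = true ↔ a ≤ x := by
  rw [emb_true, mem_notAbove, not_not]

lemma emb_Iic {a x : X} : emb x (LowerSet.Iic a) = false ↔ x ≤ a := by
  rw [emb_false, LowerSet.mem_Iic_iff]

lemma le_true {ι : Type*} {u v : ι → Bool} (h : u ≤ v) {D : ι} (hu : u D = true) :
    v D = true := Bool.le_iff_imp.1 (h D) hu

lemma le_false {ι : Type*} {u v : ι → Bool} (h : u ≤ v) {D : ι} (hv : v D = false) :
    u D = false := by
  cases hu : u D
  · rfl
  · rw [le_true h hu] at hv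
    exact hv

lemma Wit.map {α β : Type*} {r : α → α → Prop} {r' : β → β → Prop} {f : α → β} {n : ℕ}
    {t : Fin n → α} {y : α} (h : Wit r t y) (h1 : ∀ i, r (t i) y → r' (f (t i)) (f y))
    (h2 : ∀ i, r y (t i) → r' (f y) (f (t i))) : Wit r' (fun i => f (t i)) (f y) := by
  obtain ⟨⟨i, i', hi, a1, a2⟩, ⟨j, j', hj, b1, b2⟩⟩ := h
  exact ⟨⟨i, i', hi, h1 _ a1, h1 _ a2⟩, ⟨j, j', hj, h2 _ b1, h2 _ b2⟩⟩

/-- the closure of the image of `X` -/
def Yc (X : Type*) [PartialOrder X] : Set (LowerSet X → Bool) :=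
  closure (range (emb : X → LowerSet X → Bool))

lemma near_of_mem {y : LowerSet X → Bool} (hy : y ∈ Yc X) (s : Finset (LowerSet X)) :
    ∃ x : X, emb x ∈ Nb s y := by
  obtain ⟨u, hu, ⟨x, rfl⟩⟩ := mem_closure_iff.1 hy (Nb s y) (isClopen_nb s y).isOpen
    (self_mem_nb s y)
  exact ⟨x, hu⟩

lemma good_closure {n : ℕ}
    (hX : ∀ t : Fin n → X, Injective t → ∃ w, Wit (fun a b : X => a ≤ b) t w) :
    Good (fun a b : LowerSet X → Bool => a ≤ b) n (Yc X) := by
  classical
  intro t htinj htY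
  obtain ⟨s0, hs0⟩ := exists_sep (Set.finite_range t)
  choose x hx using fun (s : Finset (LowerSet X)) (i : Fin n) => near_of_mem (htY i) s
  have hw : ∀ s, s0 ⊆ s → ∃ w, Wit (fun a b : X => a ≤ b) (x s) w := by
    intro s hs
    apply hX
    intro i j hij
    apply htinj
    apply hs0 _ (mem_range_self i) _ (mem_range_self j)
    intro D hD
    rw [← hx s i D (hs hD), ← hx s j D (hs hD), hij]
  have hXne : Nonempty X := ⟨(hw s0 subset_rfl).choose⟩
  choose! w hw using hw
  let G : Ultrafilter (Finset (LowerSet X)) := Ultrafilter.of atTop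
  have hG : (G : Filter (Finset (LowerSet X))) ≤ atTop := Ultrafilter.of_le atTop
  have hev : ∀ᶠ s in (G : Filter (Finset (LowerSet X))), s0 ⊆ s :=
    hG (eventually_ge_atTop s0)
  obtain ⟨y, hy⟩ := exists_lim G (fun s => emb (w s))
  have hxt : Tendsto (fun s => (fun i => emb (x s i))) G (𝓝 t) := by
    rw [tendsto_pi_nhds]
    intro i
    exact (tendsto_of_nb s0 (fun s _ => hx s i)).mono_left hG
  refine ⟨y, isClosed_closure.mem_of_tendsto hy
    (Eventually.of_forall fun s => subset_closure (mem_range_self _)), ?_⟩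
  have := (isClosed_wit (po_le (ι := LowerSet X)) (n := n)).mem_of_tendsto
    (hxt.prodMk_nhds hy) (hev.mono (fun s hs => (hw s hs).map
      (fun i h => emb_le.2 h) (fun i h => emb_le.2 h)))
  exact this

/-- `y` is approximated from below by points of `X` -/
def Low (y : LowerSet X → Bool) : Prop := ∀ s : Finset (LowerSet X), ∃ x : X, emb x ∈ Nb s y ∧ emb x ≤ y

/-- `y` is approximated from above by points of `X` -/
def Upp (y : LowerSet X → Bool) : Prop := ∀ s : Finset (LowerSet X), ∃ x : X, emb x ∈ Nb s y ∧ y ≤ emb x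

lemma low_emb (x : X) : Low (emb x) := fun s => ⟨x, self_mem_nb s _, le_rfl⟩

lemma low_or_upp {n : ℕ} (hY : Good (fun a b : LowerSet X → Bool => a ≤ b) n (Yc X))
    {y : LowerSet X → Bool} (hy : y ∈ Yc X) : Low y ∨ Upp y := by
  classical
  obtain ⟨s0, hs0⟩ := comp_near po_le hY y
  by_contra hcon
  push Not at hcon
  obtain ⟨h1, h2⟩ := hcon
  unfold Low at h1
  unfold Upp at h2
  push Not at h1 h2
  obtain ⟨s1, h1⟩ := h1
  obtain ⟨s2, h2⟩ := h2
  obtain ⟨x, hx⟩ := near_of_mem hy (s0 ∪ s1 ∪ s2)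
  have a0 : emb x ∈ Nb s0 y :=
    nb_anti (Finset.subset_union_left.trans Finset.subset_union_left) y hx
  have a1 : emb x ∈ Nb s1 y :=
    nb_anti (Finset.subset_union_right.trans Finset.subset_union_left) y hx
  have a2 : emb x ∈ Nb s2 y := nb_anti Finset.subset_union_right y hx
  rcases hs0 _ (subset_closure (mem_range_self x)) a0 with h3 | h3
  · exact h1 x a1 h3
  · exact h2 x a2 h3

lemma pull_low [Nonempty X] (s : Finset (LowerSet X)) :
    ∀ (k : ℕ) (A : Finset (LowerSet X → Bool)), A.card = k → (∀ y ∈ A, Low y) →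
    ∃ φ : (LowerSet X → Bool) → X, ∀ y ∈ A, emb (φ y) ≤ y ∧ emb (φ y) ∈ Nb s y ∧
      (∀ x, y = emb x → φ y = x) ∧ ∀ y' ∈ A, y ≤ y' → φ y ≤ φ y' := by
  classical
  intro k
  induction k with
  | zero =>
    intro A hA hL
    rw [Finset.card_eq_zero] at hA
    subst hA
    exact ⟨fun _ => Classical.arbitrary X, by simp⟩
  | succ k ih =>
    intro A hA hL
    have hne : A.Nonempty := by
      rw [← Finset.card_pos]
      omega
    obtain ⟨m, hm⟩ := A.exists_maximal hne
    have hmA : m ∈ A := hm.prop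
    obtain ⟨φ, hφ⟩ := ih (A.erase m) (by rw [Finset.card_erase_of_mem hmA]; omega)
      (fun y hy => hL y (Finset.mem_of_mem_erase hy))
    obtain ⟨c, hc1, hc2, hc3, hc4⟩ : ∃ c : X, emb c ≤ m ∧ emb c ∈ Nb s m ∧
        (∀ x, m = emb x → c = x) ∧ ∀ y ∈ A.erase m, y ≤ m → φ y ≤ c := by
      by_cases hp : ∃ x : X, m = emb x
      · obtain ⟨x, hx⟩ := hp
        refine ⟨x, hx.ge, ?_, ?_, ?_⟩
        · rw [hx]; exact self_mem_nb s _
        · intro x' hx'
          exact emb_injective (hx.symm.trans hx')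
        · intro y hy hym
          apply emb_le.1
          rw [← hx]
          exact (hφ y hy).1.trans hym
      · obtain ⟨c, hc1, hc2⟩ := hL m hmA (s ∪ (A.erase m).image (fun y => notAbove (φ y)))
        refine ⟨c, hc2, nb_anti Finset.subset_union_left _ hc1, ?_, ?_⟩
        · intro x hx
          exact absurd ⟨x, hx⟩ hp
        · intro y hy hym
          have h1 : m (notAbove (φ y)) = true :=
            le_true ((hφ y hy).1.trans hym) (emb_notAbove.2 le_rfl)
          have h2 := hc1 (notAbove (φ y)) (Finset.mem_union_right _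
            (Finset.mem_image_of_mem _ hy))
          rw [h1] at h2
          exact emb_notAbove.1 h2
    refine ⟨Function.update φ m c, fun y hy => ?_⟩
    by_cases hym : y = m
    · subst hym
      rw [Function.update_self]
      refine ⟨hc1, hc2, hc3, fun y' hy' hle => ?_⟩
      have : y' = y := le_antisymm (hm.le_of_ge hy' hle) hle
      subst this
      rw [Function.update_self]
    · have hy' : y ∈ A.erase m := Finset.mem_erase.2 ⟨hym, hy⟩
      rw [Function.update_of_ne hym]
      obtain ⟨a1, a2, a3, a4⟩ := hφ y hy'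
      refine ⟨a1, a2, a3, fun y' hy'' hle => ?_⟩
      by_cases hym' : y' = m
      · subst hym'
        rw [Function.update_self]
        exact hc4 y hy' hle
      · rw [Function.update_of_ne hym']
        exact a4 y' (Finset.mem_erase.2 ⟨hym', hy''⟩) hle

lemma pull_upp [Nonempty X] (s : Finset (LowerSet X)) :
    ∀ (k : ℕ) (A : Finset (LowerSet X → Bool)), A.card = k → (∀ y ∈ A, Upp y) →
    ∃ φ : (LowerSet X → Bool) → X, ∀ y ∈ A, y ≤ emb (φ y) ∧ emb (φ y) ∈ Nb s y ∧
      (∀ x, y = emb x → φ y = x) ∧ ∀ y' ∈ A, y' ≤ y → φ y' ≤ φ y := by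
  classical
  intro k
  induction k with
  | zero =>
    intro A hA hL
    rw [Finset.card_eq_zero] at hA
    subst hA
    exact ⟨fun _ => Classical.arbitrary X, by simp⟩
  | succ k ih =>
    intro A hA hL
    have hne : A.Nonempty := by
      rw [← Finset.card_pos]
      omega
    obtain ⟨m, hm⟩ := A.exists_minimal hne
    have hmA : m ∈ A := hm.prop
    obtain ⟨φ, hφ⟩ := ih (A.erase m) (by rw [Finset.card_erase_of_mem hmA]; omega)
      (fun y hy => hL y (Finset.mem_of_mem_erase hy))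
    obtain ⟨c, hc1, hc2, hc3, hc4⟩ : ∃ c : X, m ≤ emb c ∧ emb c ∈ Nb s m ∧
        (∀ x, m = emb x → c = x) ∧ ∀ y ∈ A.erase m, m ≤ y → c ≤ φ y := by
      by_cases hp : ∃ x : X, m = emb x
      · obtain ⟨x, hx⟩ := hp
        refine ⟨x, hx.le, ?_, ?_, ?_⟩
        · rw [hx]; exact self_mem_nb s _
        · intro x' hx'
          exact emb_injective (hx.symm.trans hx')
        · intro y hy hym
          apply emb_le.1
          rw [← hx]
          exact hym.trans (hφ y hy).1
      · obtain ⟨c, hc1, hc2⟩ := hL m hmA (s ∪ (A.erase m).image (fun y => LowerSet.Iic (φ y)))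
        refine ⟨c, hc2, nb_anti Finset.subset_union_left _ hc1, ?_, ?_⟩
        · intro x hx
          exact absurd ⟨x, hx⟩ hp
        · intro y hy hym
          have h1 : m (LowerSet.Iic (φ y)) = false :=
            le_false (hym.trans (hφ y hy).1) (emb_Iic.2 le_rfl)
          have h2 := hc1 (LowerSet.Iic (φ y)) (Finset.mem_union_right _
            (Finset.mem_image_of_mem _ hy))
          rw [h1] at h2
          exact emb_Iic.1 h2
    refine ⟨Function.update φ m c, fun y hy => ?_⟩
    by_cases hym : y = m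
    · subst hym
      rw [Function.update_self]
      refine ⟨hc1, hc2, hc3, fun y' hy' hle => ?_⟩
      have : y' = y := le_antisymm hle (hm.le_of_le hy' hle)
      subst this
      rw [Function.update_self]
    · have hy' : y ∈ A.erase m := Finset.mem_erase.2 ⟨hym, hy⟩
      rw [Function.update_of_ne hym]
      obtain ⟨a1, a2, a3, a4⟩ := hφ y hy'
      refine ⟨a1, a2, a3, fun y' hy'' hle => ?_⟩
      by_cases hym' : y' = m
      · subst hym'
        rw [Function.update_self]
        exact hc4 y hy' hle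
      · rw [Function.update_of_ne hym']
        exact a4 y' (Finset.mem_erase.2 ⟨hym', hy''⟩) hle

/-- the interpolation: a comparability from an upper limit to a lower limit goes through `X` -/
lemma interp {y y' : LowerSet X → Bool} (hy : Upp y) (hy' : Low y') (hle : y ≤ y') :
    ∃ x : X, y ≤ emb x ∧ emb x ≤ y' := by
  let G : LowerSet X := ⟨{x | emb x ≤ y'}, fun a b hba ha => (emb_le.2 hba).trans ha⟩
  obtain ⟨x, hx1, hx2⟩ := hy' {G}
  have h1 : emb x G = false := emb_false.2 hx2
  rw [hx1 G (by simp)] at h1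
  obtain ⟨x', hx1', hx2'⟩ := hy {G}
  have h2 := hx1' G (by simp)
  rw [le_false hle h1] at h2
  exact ⟨x', hx2', emb_false.1 h2⟩

/-- Pulling back a finite subset of the closure to `X`. -/
lemma pull_back [Nonempty X] {n : ℕ}
    (hY : Good (fun a b : LowerSet X → Bool => a ≤ b) n (Yc X))
    {F : Set (LowerSet X → Bool)} (hF : F.Finite) (hFY : F ⊆ Yc X) :
    ∃ φ : (LowerSet X → Bool) → X, (∀ x : X, φ (emb x) = x ∨ emb x ∉ F) ∧
      (∀ y ∈ F, ∀ y' ∈ F, y ≤ y' → φ y ≤ φ y') ∧
      (∀ y ∈ F, ∀ y' ∈ F, φ y = φ y' → y = y') := by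
  classical
  obtain ⟨s1, hs1⟩ := exists_sep hF
  have h1 : ∀ p : (LowerSet X → Bool) × (LowerSet X → Bool), ∃ s : Finset (LowerSet X),
      Upp p.1 → Low p.2 → p.1 ≤ p.2 → ∃ x : X, p.1 ≤ emb x ∧ emb x ≤ p.2 ∧
        LowerSet.Iic x ∈ s ∧ notAbove x ∈ s := by
    intro p
    by_cases hp : Upp p.1 ∧ Low p.2 ∧ p.1 ≤ p.2
    · obtain ⟨x, hx1, hx2⟩ := interp hp.1 hp.2.1 hp.2.2
      exact ⟨{LowerSet.Iic x, notAbove x}, fun _ _ _ => ⟨x, hx1, hx2, by simp, by simp⟩⟩
    · exact ⟨∅, fun a b c => absurd ⟨a, b, c⟩ hp⟩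
  choose f hf using h1
  set s := s1 ∪ (hF.toFinset ×ˢ hF.toFinset).biUnion f with hs
  have hsep : ∀ a ∈ F, ∀ b ∈ F, (∀ D ∈ s, a D = b D) → a = b := fun a ha b hb h =>
    hs1 a ha b hb (fun D hD => h D (Finset.mem_union_left _ hD))
  have hint : ∀ y ∈ F, ∀ y' ∈ F, Upp y → Low y' → y ≤ y' → ∃ x : X, y ≤ emb x ∧
      emb x ≤ y' ∧ LowerSet.Iic x ∈ s ∧ notAbove x ∈ s := by
    intro y hy y' hy' a b c
    obtain ⟨x, h1, h2, h3, h4⟩ := hf (y, y') a b c
    have hsub : f (y, y') ⊆ s := by
      refine (Finset.subset_biUnion_of_mem f ?_).trans Finset.subset_union_right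
      simp only [Finset.mem_product, Set.Finite.mem_toFinset]
      exact ⟨hy, hy'⟩
    exact ⟨x, h1, h2, hsub h3, hsub h4⟩
  obtain ⟨φA, hA⟩ := pull_low s _ (hF.toFinset.filter Low) rfl
    (fun y hy => (Finset.mem_filter.1 hy).2)
  obtain ⟨φB, hB⟩ := pull_upp s _ (hF.toFinset.filter (fun y => ¬ Low y)) rfl
    (fun y hy => by
      obtain ⟨h1, h2⟩ := Finset.mem_filter.1 hy
      exact (low_or_upp hY (hFY (hF.mem_toFinset.1 h1))).resolve_left h2)
  have hA' : ∀ y ∈ F, Low y → y ∈ hF.toFinset.filter Low := fun y hy h =>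
    Finset.mem_filter.2 ⟨hF.mem_toFinset.2 hy, h⟩
  have hB' : ∀ y ∈ F, ¬ Low y → y ∈ hF.toFinset.filter (fun y => ¬ Low y) := fun y hy h =>
    Finset.mem_filter.2 ⟨hF.mem_toFinset.2 hy, h⟩
  have hnear : ∀ y ∈ F, emb (if Low y then φA y else φB y) ∈ Nb s y := by
    intro y hy
    by_cases h : Low y
    · rw [if_pos h]
      exact (hA y (hA' y hy h)).2.1
    · rw [if_neg h]
      exact (hB y (hB' y hy h)).2.1
  refine ⟨fun y => if Low y then φA y else φB y, ?_, ?_, ?_⟩
  · intro x
    by_cases hx : emb x ∈ F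
    · left
      show (if Low (emb x) then φA (emb x) else φB (emb x)) = x
      rw [if_pos (low_emb x)]
      exact (hA _ (hA' _ hx (low_emb x))).2.2.1 x rfl
    · exact Or.inr hx
  · intro y hy y' hy' hle
    by_cases h : Low y
    · by_cases h' : Low y'
      · simp only [if_pos h, if_pos h']
        exact (hA y (hA' y hy h)).2.2.2 y' (hA' y' hy' h') hle
      · simp only [if_pos h, if_neg h']
        apply emb_le.1
        exact (hA y (hA' y hy h)).1.trans (hle.trans (hB y' (hB' y' hy' h')).1)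
    · by_cases h' : Low y'
      · simp only [if_neg h, if_pos h']
        obtain ⟨x, h1, h2, h3, h4⟩ := hint y hy y' hy'
          ((low_or_upp hY (hFY hy)).resolve_left h) h' hle
        have a1 : φB y ≤ x := by
          have b1 := (hB y (hB' y hy h)).2.1 _ h3
          rw [le_false h1 (emb_Iic.2 le_rfl)] at b1
          exact emb_Iic.1 b1
        have a2 : x ≤ φA y' := by
          have b1 := (hA y' (hA' y' hy' h')).2.1 _ h4
          rw [le_true h2 (emb_notAbove.2 le_rfl)] at b1
          exact emb_notAbove.1 b1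
        exact a1.trans a2
      · simp only [if_neg h, if_neg h']
        exact (hB y' (hB' y' hy' h')).2.2.2 y (hB' y hy h) hle
  · intro y hy y' hy' heq
    apply hsep y hy y' hy'
    intro D hD
    rw [← hnear y hy D hD, ← hnear y' hy' D hD]
    exact congrArg (fun z => emb z D) heq

/-- the finite good subset of `X` -/
lemma finite_good [Nonempty X] {n : ℕ}
    (hX : ∀ t : Fin n → X, Injective t → ∃ w, Wit (fun a b : X => a ≤ b) t w)
    {E : Set X} (hE : E.Finite) :
    ∃ F : Set X, F.Finite ∧ E ⊆ F ∧ Good (fun a b : X => a ≤ b) n F := by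
  have hY := good_closure hX
  obtain ⟨F, hF1, hF2, hF3, hF4⟩ := exists_finite_good po_le (hE.image emb)
    (by
      rintro _ ⟨x, -, rfl⟩
      exact subset_closure (mem_range_self x)) isClosed_closure hY
  obtain ⟨φ, h1, h2, h3⟩ := pull_back hY hF1 hF3
  refine ⟨φ '' F, hF1.image φ, ?_, ?_⟩
  · intro x hx
    have hxF : emb x ∈ F := hF2 (mem_image_of_mem emb hx)
    exact ⟨emb x, hxF, (h1 x).resolve_right (not_not.2 hxF)⟩
  · intro t htinj htF
    choose u hu1 hu2 using htF
    obtain ⟨y, hy, hw⟩ := hF4 u (by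
      intro i j hij
      apply htinj
      rw [← hu2 i, ← hu2 j, hij]) hu1
    refine ⟨φ y, mem_image_of_mem φ hy, ?_⟩
    have := hw.map (r' := fun a b : X => a ≤ b) (f := φ)
      (fun i h => h2 _ (hu1 i) _ hy h) (fun i h => h2 _ hy _ (hu1 i) h)
    simpa only [hu2] using this

end Emb

/-- A subset `S` of a poset `X` is partitionable if some `x : X` has at least two distinct points
of `S` above it and at least two distinct points of `S` below it. -/
def Partitionable {X : Type*} [PartialOrder X] (S : Set X) : Prop :=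
  ∃ x : X, (∃ s ∈ S, ∃ s' ∈ S, s ≠ s' ∧ x ≤ s ∧ x ≤ s') ∧
    (∃ s ∈ S, ∃ s' ∈ S, s ≠ s' ∧ s ≤ x ∧ s' ≤ x)

/-- The Helly number of a poset: the supremum of the sizes of its nonpartitionable subsets. -/
noncomputable def helly (X : Type*) [PartialOrder X] : ℕ∞ :=
  ⨆ S : {S : Set X // ¬ Partitionable S}, (S : Set X).encard

lemma wit_of_partitionable {X : Type*} [PartialOrder X] {n : ℕ} {t : Fin n → X}
    (h : Partitionable (range t)) : ∃ w, Wit (fun a b : X => a ≤ b) t w := by
  obtain ⟨x, ⟨_, ⟨i, rfl⟩, _, ⟨i', rfl⟩, h1, h2, h3⟩, ⟨_, ⟨j, rfl⟩, _, ⟨j', rfl⟩, h4, h5, h6⟩⟩ := h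
  exact ⟨x, ⟨j, j', fun h => h4 (by rw [h]), h5, h6⟩, ⟨i, i', fun h => h1 (by rw [h]), h2, h3⟩⟩

lemma helly_le_iff {X : Type*} [PartialOrder X] (n : ℕ) :
    helly X ≤ n ↔ ∀ t : Fin (n + 1) → X, Injective t → ∃ w, Wit (fun a b : X => a ≤ b) t w := by
  constructor
  · intro h t ht
    by_contra hcon
    have h1 : ¬ Partitionable (range t) := fun hp => hcon (wit_of_partitionable hp)
    have h2 : (range t).encard ≤ helly X :=
      le_iSup (fun S : {S : Set X // ¬ Partitionable S} => (S : Set X).encard) ⟨range t, h1⟩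
    have h3 : (range t).encard = (n + 1 : ℕ) := by
      rw [← Set.image_univ, ht.encard_image, Set.encard_univ]
      simp
    rw [h3] at h2
    have h4 := h2.trans h
    rw [Nat.cast_le] at h4
    omega
  · intro h
    refine iSup_le ?_
    rintro ⟨S, hS⟩
    by_contra hcon
    push Not at hcon
    have h1 : ((n + 1 : ℕ) : ℕ∞) ≤ S.encard := by
      have := Order.add_one_le_of_lt hcon
      simpa using this
    obtain ⟨T, hTS, hT⟩ := Set.exists_subset_encard_eq h1
    have hTf : T.Finite := Set.finite_of_encard_eq_coe hT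
    have hTc : hTf.toFinset.card = n + 1 := by
      rw [hTf.encard_eq_coe_toFinset_card] at hT
      exact_mod_cast hT
    let e := (hTf.toFinset.equivFinOfCardEq hTc).symm
    obtain ⟨w, ⟨i, i', hi, a1, a2⟩, ⟨j, j', hj, b1, b2⟩⟩ := h (fun i => (e i : X))
      (Subtype.val_injective.comp e.injective)
    have hmem : ∀ i, (e i : X) ∈ S := fun i => hTS (hTf.mem_toFinset.1 (e i).2)
    have hne : ∀ i j, i ≠ j → (e i : X) ≠ (e j : X) := fun i j hij h =>
      hij (e.injective (Subtype.ext h))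
    exact hS ⟨w, ⟨_, hmem j, _, hmem j', hne _ _ hj, b1, b2⟩,
      ⟨_, hmem i, _, hmem i', hne _ _ hi, a1, a2⟩⟩

/-- Q1 of MP_0878ad_co: in an infinite poset with finite Helly number every finite subset lies
in a finite subset whose Helly number (as a poset with the induced order) is the same. -/
theorem result : ∀ (X : Type*) [PartialOrder X] [Infinite X], helly X < ⊤ →
    ∀ E : Set X, E.Finite → ∃ F : Set X, F.Finite ∧ E ⊆ F ∧ helly ↥F = helly X := by
  intro X _ _ hX E hE
  have hne : Nonempty {S : Set X // ¬ Partitionable S} := ⟨⟨∅, by simp [Partitionable]⟩⟩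
  obtain ⟨⟨S0, hS0⟩, hS0c⟩ := ENat.exists_eq_iSup_of_lt_top hX
  change S0.encard = helly X at hS0c
  obtain ⟨n, hn⟩ : ∃ n : ℕ, helly X = n := ⟨(helly X).toNat, (ENat.natCast_toNat hX.ne).symm⟩
  have hS0f : S0.Finite := Set.finite_of_encard_eq_coe (hS0c.trans hn)
  have hXne : Nonempty X := inferInstance
  obtain ⟨F, hF1, hF2, hF3⟩ := finite_good ((helly_le_iff n).1 hn.le) (hE.union hS0f)
  refine ⟨F, hF1, subset_union_left.trans hF2, le_antisymm ?_ ?_⟩
  · rw [hn, helly_le_iff]
    intro t ht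
    obtain ⟨w, hw, hwit⟩ := hF3 (fun i => (t i : X)) (Subtype.val_injective.comp ht)
      (fun i => (t i).2)
    exact ⟨⟨w, hw⟩, hwit⟩
  · have h1 : ¬ Partitionable (Subtype.val ⁻¹' S0 : Set ↥F) := by
      rintro ⟨x, ⟨s, hs, s', hs', h1, h2, h3⟩, ⟨u, hu, u', hu', h4, h5, h6⟩⟩
      exact hS0 ⟨x, ⟨s, hs, s', hs', fun h => h1 (Subtype.ext h), h2, h3⟩,
        ⟨u, hu, u', hu', fun h => h4 (Subtype.ext h), h5, h6⟩⟩
    have h2 : (Subtype.val ⁻¹' S0 : Set ↥F).encard ≤ helly ↥F :=
      le_iSup (fun S : {S : Set ↥F // ¬ Partitionable S} => (S : Set ↥F).encard) ⟨_, h1⟩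
    rwa [Set.encard_preimage_of_injective_subset_range Subtype.val_injective (by
      rw [Subtype.range_coe]
      exact subset_union_right.trans hF2), hS0c] at h2

end Pool.Agent.Results.MP_0878ad_co.FiniteHelly
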